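import Mathlib

/-!
Definitions for MP_d29ee2_al.  An ordered group is a type with instances
`Group`, `LinearOrder`, `MulLeftMono`, `MulRightMono` (the order is total and invariant under
multiplication on both sides).
-/

namespace Pool.Agent.Lib.MP_d29ee2_al

/-- A group is divisible if every element has an `n`-th root for every `n ≥ 1`. -/
def IsDivisibleGroup (D : Type*) [Group D] : Prop :=
  ∀ (d : D) (n : ℕ), 1 ≤ n → ∃ x : D, x ^ n = d

/-- A subgroup `J` is isolated if `g ^ n ∈ J` with `n > 0` forces `g ∈ J`. -/
def IsIsolated {T : Type*} [Group T] (J : Subgroup T) : Prop :=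
  ∀ (g : T) (n : ℕ), 0 < n → g ^ n ∈ J → g ∈ J

/-- The isolator of `S` in `T`: the smallest isolated subgroup of `T` containing `S`
(the intersection of all isolated subgroups containing `S`). -/
def isolator {T : Type*} [Group T] (S : Subgroup T) : Subgroup T :=
  sInf {J : Subgroup T | S ≤ J ∧ IsIsolated J}

/-- An order-embedding: an injective group homomorphism that preserves the order. -/
def IsOrderEmb {G H : Type*} [Group G] [LinearOrder G] [Group H] [LinearOrder H]
    (i : G →* H) : Prop :=
  Function.Injective i ∧ Monotone i

/-- `H` together with `i : G →* H` is a minimal divisible completion of `G`: `i` is an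
order-embedding, `H` is divisible and `H` is the isolator of the image of `G`. -/
def IsMinDivCompletion {G H : Type*} [Group G] [LinearOrder G] [Group H] [LinearOrder H]
    (i : G →* H) : Prop :=
  IsOrderEmb i ∧ IsDivisibleGroup H ∧ isolator i.range = ⊤

end Pool.Agent.Lib.MP_d29ee2_al
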