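import Pool.Agent.Lib.MP_d29ee2_al.Universal

namespace Pool.Agent.Lib.MP_d29ee2_al

universe u v w

/-- The group of triples `(r, x, y)`, the semidirect product of the plane by the reals acting by
`2 ^ r`.  The index `s` only selects the order. -/
@[ext] structure Aff (s : Bool) where
  r : ℝ
  x : ℝ
  y : ℝ

namespace Aff

variable {s : Bool}

noncomputable instance : Mul (Aff s) :=
  ⟨fun a b => ⟨a.r + b.r, a.x + (2 : ℝ) ^ a.r * b.x, a.y + (2 : ℝ) ^ a.r * b.y⟩⟩
instance : One (Aff s) := ⟨⟨0, 0, 0⟩⟩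
noncomputable instance : Inv (Aff s) :=
  ⟨fun a => ⟨-a.r, -((2 : ℝ) ^ (-a.r) * a.x), -((2 : ℝ) ^ (-a.r) * a.y)⟩⟩

@[simp] theorem mul_r (a b : Aff s) : (a * b).r = a.r + b.r := rfl
@[simp] theorem mul_x (a b : Aff s) : (a * b).x = a.x + (2 : ℝ) ^ a.r * b.x := rfl
@[simp] theorem mul_y (a b : Aff s) : (a * b).y = a.y + (2 : ℝ) ^ a.r * b.y := rfl
@[simp] theorem one_r : (1 : Aff s).r = 0 := rfl
@[simp] theorem one_x : (1 : Aff s).x = 0 := rfl
@[simp] theorem one_y : (1 : Aff s).y = 0 := rfl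
@[simp] theorem inv_r (a : Aff s) : (a⁻¹).r = -a.r := rfl
@[simp] theorem inv_x (a : Aff s) : (a⁻¹).x = -((2 : ℝ) ^ (-a.r) * a.x) := rfl
@[simp] theorem inv_y (a : Aff s) : (a⁻¹).y = -((2 : ℝ) ^ (-a.r) * a.y) := rfl

noncomputable instance : Group (Aff s) :=
  Group.ofLeftAxioms
    (fun a b c => by
      ext <;> simp [Real.rpow_add (show (0 : ℝ) < 2 by norm_num)] <;> ring)
    (fun a => by ext <;> simp)
    (fun a => by ext <;> simp)

/-- The sign used on the last coordinate. -/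
def sg (s : Bool) : ℝ := if s then 1 else -1

theorem sg_sq (s : Bool) : sg s * sg s = 1 := by cases s <;> simp [sg]

/-- The key used for the lexicographic order. -/
def key (a : Aff s) : ℝ ×ₗ ℝ ×ₗ ℝ := toLex (a.r, toLex (a.x, sg s * a.y))

theorem key_injective : Function.Injective (key (s := s)) := by
  intro a b h
  simp only [key, toLex_inj, Prod.mk.injEq] at h
  obtain ⟨h1, h2, h3⟩ := h
  have : sg s ≠ 0 := by cases s <;> simp [sg]
  exact Aff.ext h1 h2 (mul_left_cancel₀ this h3)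

noncomputable instance : LinearOrder (Aff s) := LinearOrder.lift' key key_injective

theorem le_def (a b : Aff s) : a ≤ b ↔
    a.r < b.r ∨ a.r = b.r ∧ (a.x < b.x ∨ a.x = b.x ∧ sg s * a.y ≤ sg s * b.y) := by
  show key a ≤ key b ↔ _
  simp [key, Prod.Lex.toLex_le_toLex]

instance : MulLeftMono (Aff s) := ⟨fun c a b h => by
  have hp : (0 : ℝ) < (2 : ℝ) ^ c.r := Real.rpow_pos_of_pos (by norm_num) _
  show c * a ≤ c * b
  rw [le_def] at h ⊢
  simp only [mul_r, mul_x, mul_y]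
  rcases h with h | ⟨h1, h | ⟨h2, h3⟩⟩
  · left; linarith
  · right; exact ⟨by rw [h1], Or.inl (by nlinarith)⟩
  · right; refine ⟨by rw [h1], Or.inr ⟨by rw [h2], ?_⟩⟩
    nlinarith⟩

instance : MulRightMono (Aff s) := ⟨fun c a b h => by
  show a * c ≤ b * c
  rw [le_def] at h ⊢
  simp only [mul_r, mul_x, mul_y]
  rcases h with h | ⟨h1, h | ⟨h2, h3⟩⟩
  · left; linarith
  · right; exact ⟨by rw [h1], Or.inl (by rw [h1]; linarith)⟩
  · right; refine ⟨by rw [h1], Or.inr ⟨by rw [h1, h2], ?_⟩⟩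
    rw [h1]; nlinarith⟩

theorem pow_eq (a : Aff s) (n : ℕ) : a ^ n = ⟨n * a.r,
    (∑ k ∈ Finset.range n, ((2 : ℝ) ^ a.r) ^ k) * a.x,
    (∑ k ∈ Finset.range n, ((2 : ℝ) ^ a.r) ^ k) * a.y⟩ := by
  induction n with
  | zero => ext <;> simp
  | succ n ih =>
    have h : (2 : ℝ) ^ ((n : ℝ) * a.r) = ((2 : ℝ) ^ a.r) ^ n := by
      rw [mul_comm, Real.rpow_mul (by norm_num), Real.rpow_natCast]
    rw [pow_succ, ih]
    ext
    · simp; ring
    · simp [Finset.sum_range_succ, h]; ring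
    · simp [Finset.sum_range_succ, h]; ring

theorem divisible : IsDivisibleGroup (Aff s) := by
  intro d n hn
  have hn' : (n : ℝ) ≠ 0 := by positivity
  set S : ℝ := ∑ k ∈ Finset.range n, ((2 : ℝ) ^ (d.r / n)) ^ k with hS
  have hS0 : S ≠ 0 := by
    refine (Finset.sum_pos (fun k _ => ?_) ⟨0, by simp; omega⟩).ne'
    exact pow_pos (Real.rpow_pos_of_pos (by norm_num) _) _
  refine ⟨⟨d.r / n, d.x / S, d.y / S⟩, ?_⟩
  rw [pow_eq]
  ext
  · simp; field_simp
  · show S * (d.x / S) = d.x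
    field_simp
  · show S * (d.y / S) = d.y
    field_simp

/-- The identity map between the two ordered copies. -/
def cast (s t : Bool) : Aff s →* Aff t where
  toFun a := ⟨a.r, a.x, a.y⟩
  map_one' := rfl
  map_mul' _ _ := rfl

/-- The subgroup of triples `(k, p + q √2, q)` with `k` an integer and `p, q` rational. -/
def sub : Subgroup (Aff true) where
  carrier := {a | (∃ k : ℤ, a.r = k) ∧ ∃ p q : ℚ, a.x = p + q * √2 ∧ a.y = q}
  mul_mem' := by
    rintro a b ⟨⟨k, hk⟩, p, q, hx, hy⟩ ⟨⟨k', hk'⟩, p', q', hx', hy'⟩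
    refine ⟨⟨k + k', by simp [hk, hk']⟩, p + 2 ^ k * p', q + 2 ^ k * q', ?_, ?_⟩
    · simp [hk, hx, hx']; ring
    · simp [hk, hy, hy']
  one_mem' := ⟨⟨0, by simp⟩, 0, 0, by simp, by simp⟩
  inv_mem' := by
    rintro a ⟨⟨k, hk⟩, p, q, hx, hy⟩
    have h : (2 : ℝ) ^ (-(k : ℝ)) = (2 : ℝ) ^ (-k) := by
      rw [← Real.rpow_intCast]; simp
    refine ⟨⟨-k, by simp [hk]⟩, -(2 ^ (-k) * p), -(2 ^ (-k) * q), ?_, ?_⟩
    · rw [inv_x, hk, hx, h]; push_cast; ring
    · rw [inv_y, hk, hy, h]; push_cast; ring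

/-- The embedding of `sub` in either ordered copy. -/
noncomputable def emb (s : Bool) : sub →* Aff s := (cast true s).comp sub.subtype

theorem emb_isOrderEmb (s : Bool) : IsOrderEmb (emb s) := by
  constructor
  · intro a b h
    apply Subtype.ext
    exact Aff.ext (congrArg (Aff.r (s := s)) h) (congrArg (Aff.x (s := s)) h)
      (congrArg (Aff.y (s := s)) h)
  · rintro ⟨a, ⟨k, hk⟩, p, q, hx, hy⟩ ⟨b, ⟨k', hk'⟩, p', q', hx', hy'⟩ h
    have h' : a ≤ b := h
    rw [le_def] at h' ⊢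
    show a.r < b.r ∨ a.r = b.r ∧ (a.x < b.x ∨ a.x = b.x ∧ sg s * a.y ≤ sg s * b.y)
    rcases h' with h' | ⟨h1, h' | ⟨h2, -⟩⟩
    · exact Or.inl h'
    · exact Or.inr ⟨h1, Or.inl h'⟩
    · refine Or.inr ⟨h1, Or.inr ⟨h2, le_of_eq ?_⟩⟩
      have hq : q = q' := by
        by_contra hne
        have hne' : (q : ℝ) - q' ≠ 0 := sub_ne_zero.2 (by exact_mod_cast hne)
        apply irrational_sqrt_two
        refine ⟨(p' - p) / (q - q'), ?_⟩
        push_cast
        rw [div_eq_iff hne']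
        rw [hx, hx'] at h2
        linarith
      rw [hy, hy', hq]

/-- The element `t`. -/
def tt : sub := ⟨⟨1, 0, 0⟩, ⟨1, by simp⟩, 0, 0, by simp, by simp⟩
/-- The element `a`. -/
def aa : sub := ⟨⟨0, 1, 0⟩, ⟨0, by simp⟩, 1, 0, by simp, by simp⟩
/-- The element `b`. -/
noncomputable def bb : sub := ⟨⟨0, √2, 1⟩, ⟨0, by simp⟩, 0, 1, by simp, by simp⟩

theorem image_w {K : Type u} [Group K] (i : sub →* K) (σ : K) (hσ : σ ^ 2 = i tt) (s : Bool)
    (φ : K →* Aff s) (hφ : ∀ g, φ (i g) = emb s g) :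
    φ (i bb * (σ * i aa * σ⁻¹)⁻¹) = ⟨0, 0, 1⟩ := by
  have h1 : φ σ = ⟨1 / 2, 0, 0⟩ := by
    apply root_unique (n := 2) (by norm_num)
    rw [← map_pow, hσ, hφ, pow_two]
    ext
    · show (1 : ℝ) = 1 / 2 + 1 / 2
      norm_num
    · show (0 : ℝ) = 0 + _ * 0
      simp
    · show (0 : ℝ) = 0 + _ * 0
      simp
  have ha : emb s aa = ⟨0, 1, 0⟩ := rfl
  have hb : emb s bb = ⟨0, √2, 1⟩ := rfl
  rw [map_mul, map_inv, map_mul, map_mul, map_inv, h1, hφ, hφ, ha, hb]
  ext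
  · simp
  · simp [Real.sqrt_eq_rpow]
  · simp

end Aff

theorem no_ordered_universal {K : Type u} [Group K] [LinearOrder K] (i : Aff.sub →* K)
    (hK : IsDivisibleGroup K) :
    ∃ (H : Type) (_ : Group H) (_ : LinearOrder H) (_ : MulLeftMono H) (_ : MulRightMono H)
      (j : Aff.sub →* H), IsMinDivCompletion j ∧
        ¬ ∃ φ : K →* H, Monotone φ ∧ ∀ g, φ (i g) = j g := by
  obtain ⟨σ, hσ⟩ := hK (i Aff.tt) 2 (by norm_num)
  set z : K := i Aff.bb * (σ * i Aff.aa * σ⁻¹)⁻¹ with hz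
  have key : ∀ s : Bool, ∀ φ : K →* isolator (Aff.emb s).range,
      (∀ g, φ (i g) = (Aff.emb s).codRestrict (isolator (Aff.emb s).range)
        (fun g => le_isolator (Aff.emb s).range ⟨g, rfl⟩) g) →
      ((φ z : isolator (Aff.emb s).range) : Aff s) = ⟨0, 0, 1⟩ := by
    intro s φ hφ
    exact Aff.image_w i σ hσ s ((isolator (Aff.emb s).range).subtype.comp φ)
      (fun g => congrArg Subtype.val (hφ g))
  rcases le_total z 1 with h | h
  · refine ⟨isolator (Aff.emb true).range, inferInstance, inferInstance,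
      subgroup_mulLeftMono _, subgroup_mulRightMono _, _,
      isMinDivCompletion_isolator _ (Aff.emb_isOrderEmb true) Aff.divisible, ?_⟩
    rintro ⟨φ, hm, hφ⟩
    have h1 := hm h
    rw [map_one] at h1
    have h2 : ((φ z : isolator (Aff.emb true).range) : Aff true) ≤ 1 := h1
    rw [key true φ hφ, Aff.le_def] at h2
    norm_num [Aff.sg] at h2
  · refine ⟨isolator (Aff.emb false).range, inferInstance, inferInstance,
      subgroup_mulLeftMono _, subgroup_mulRightMono _, _,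
      isMinDivCompletion_isolator _ (Aff.emb_isOrderEmb false) Aff.divisible, ?_⟩
    rintro ⟨φ, hm, hφ⟩
    have h1 := hm h
    rw [map_one] at h1
    have h2 : (1 : Aff false) ≤ ((φ z : isolator (Aff.emb false).range) : Aff false) := h1
    rw [key false φ hφ, Aff.le_def] at h2
    norm_num [Aff.sg] at h2

end Pool.Agent.Lib.MP_d29ee2_al
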