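import Pool.Agent.Lib.MP_d29ee2_al.Defs

namespace Pool.Agent.Lib.MP_d29ee2_al

universe u v w

theorem le_isolator {T : Type*} [Group T] (S : Subgroup T) : S ≤ isolator S :=
  le_sInf fun _ hJ => hJ.1

theorem isolator_le {T : Type*} [Group T] {S J : Subgroup T} (h : S ≤ J) (hJ : IsIsolated J) :
    isolator S ≤ J :=
  sInf_le ⟨h, hJ⟩

theorem isIsolated_isolator {T : Type*} [Group T] (S : Subgroup T) : IsIsolated (isolator S) := by
  intro g n hn hg
  rw [isolator, Subgroup.mem_sInf] at hg ⊢
  intro J hJ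
  exact hJ.2 g n hn (hg J hJ)

theorem root_unique {H : Type*} [Group H] [LinearOrder H] [MulLeftMono H] [MulRightMono H]
    {x y : H} {n : ℕ} (hn : 0 < n) (h : x ^ n = y ^ n) : x = y :=
  (pow_left_strictMono (M := H) hn.ne').injective h

/-- The image of a divisible group in an ordered group is isolated. -/
theorem isIsolated_range {K H : Type*} [Group K] [Group H] [LinearOrder H] [MulLeftMono H]
    [MulRightMono H] (hK : IsDivisibleGroup K) (φ : K →* H) : IsIsolated φ.range := by
  rintro g n hn ⟨k, hk⟩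
  obtain ⟨x, rfl⟩ := hK k n hn
  rw [map_pow] at hk
  exact ⟨x, root_unique hn hk⟩

theorem surjective_of_fix {G K H : Type*} [Group G] [Group K] [Group H] [LinearOrder H]
    [MulLeftMono H] [MulRightMono H] (hK : IsDivisibleGroup K) (i : G →* K) (j : G →* H)
    (hj : isolator j.range = ⊤) (φ : K →* H) (hφ : ∀ g, φ (i g) = j g) :
    Function.Surjective φ := by
  have h1 : j.range ≤ φ.range := by
    rintro _ ⟨g, rfl⟩
    exact ⟨i g, hφ g⟩
  have h2 := isolator_le h1 (isIsolated_range hK φ)
  rw [hj] at h2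
  intro h
  exact h2 (Subgroup.mem_top h)

/-- The isolator of the image in a divisible ordered group is a minimal divisible completion. -/
theorem isMinDivCompletion_isolator {G D : Type*} [Group G] [LinearOrder G] [Group D]
    [LinearOrder D] (j : G →* D) (hj : IsOrderEmb j) (hD : IsDivisibleGroup D) :
    IsMinDivCompletion (j.codRestrict (isolator j.range)
      (fun g => le_isolator j.range ⟨g, rfl⟩)) := by
  refine ⟨⟨fun a b h => hj.1 (congrArg Subtype.val h), fun a b h => hj.2 h⟩, ?_, ?_⟩
  · rintro ⟨d, hd⟩ n hn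
    obtain ⟨x, hx⟩ := hD d n hn
    refine ⟨⟨x, isIsolated_isolator _ x n hn (hx ▸ hd)⟩, Subtype.ext hx⟩
  · set i := j.codRestrict (isolator j.range) (fun g => le_isolator j.range ⟨g, rfl⟩) with hi
    have h1 : j.range ≤ (isolator i.range).map (isolator j.range).subtype := by
      rintro _ ⟨g, rfl⟩
      exact ⟨i g, le_isolator i.range ⟨g, rfl⟩, rfl⟩
    have h2 : IsIsolated ((isolator i.range).map (isolator j.range).subtype) := by
      rintro g n hn ⟨⟨y, hy⟩, hy2, hy3⟩
      have hy3' : y = g ^ n := hy3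
      subst hy3'
      have hg : g ∈ isolator j.range := isIsolated_isolator _ g n hn hy
      exact ⟨⟨g, hg⟩, isIsolated_isolator i.range ⟨g, hg⟩ n hn hy2, rfl⟩
    have h3 := isolator_le h1 h2
    rw [eq_top_iff]
    rintro ⟨x, hx⟩ -
    obtain ⟨⟨y, hy⟩, hy2, hy3⟩ := h3 hx
    have : y = x := hy3
    subst this
    exact hy2

/-- Formal expressions built from elements of `G` with products, inverses and roots. -/
inductive Expr (G : Type u) : Type u
  | of : G → Expr G
  | mul : Expr G → Expr G → Expr G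
  | inv : Expr G → Expr G
  | root : ℕ → Expr G → Expr G

/-- Evaluation of an expression in a divisible group. -/
noncomputable def Expr.eval {G : Type u} {H : Type v} [Group G] [Group H] (j : G →* H)
    (hH : IsDivisibleGroup H) : Expr G → H
  | .of g => j g
  | .mul a b => a.eval j hH * b.eval j hH
  | .inv a => (a.eval j hH)⁻¹
  | .root n a => Classical.choose (hH (a.eval j hH) (n + 1) (Nat.succ_le_succ n.zero_le))

theorem eval_surjective {G : Type u} {H : Type v} [Group G] [Group H] [LinearOrder H]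
    [MulLeftMono H] [MulRightMono H] (j : G →* H) (hH : IsDivisibleGroup H)
    (hj : isolator j.range = ⊤) : Function.Surjective (Expr.eval j hH) := by
  let J : Subgroup H :=
    { carrier := Set.range (Expr.eval j hH)
      mul_mem' := by
        rintro _ _ ⟨a, rfl⟩ ⟨b, rfl⟩
        exact ⟨.mul a b, rfl⟩
      one_mem' := ⟨.of 1, map_one j⟩
      inv_mem' := by
        rintro _ ⟨a, rfl⟩
        exact ⟨.inv a, rfl⟩ }
  have h1 : j.range ≤ J := by
    rintro _ ⟨g, rfl⟩
    exact ⟨.of g, rfl⟩
  have h2 : IsIsolated J := by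
    rintro g n hn ⟨a, ha⟩
    obtain ⟨m, rfl⟩ : ∃ m, n = m + 1 := ⟨n - 1, by omega⟩
    refine ⟨.root m a, root_unique hn ?_⟩
    rw [← ha]
    exact Classical.choose_spec (hH (a.eval j hH) (m + 1) (Nat.succ_le_succ m.zero_le))
  have h3 := isolator_le h1 h2
  rw [hj] at h3
  intro h
  exact h3 (Subgroup.mem_top h)

/-- A bundled minimal divisible completion. -/
structure Compl (G : Type u) [Group G] [LinearOrder G] where
  H : Type v
  [grp : Group H]
  [ord : LinearOrder H]
  [lm : MulLeftMono H]
  [rm : MulRightMono H]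
  j : G →* H
  spec : IsMinDivCompletion j

attribute [instance] Compl.grp Compl.ord Compl.lm Compl.rm

theorem isolator_eq_top_of_equiv {G H H' : Type*} [Group G] [Group H] [Group H']
    (j : G →* H) (e : H' ≃* H) (hj : isolator j.range = ⊤) :
    isolator ((e.symm : H →* H').comp j).range = ⊤ := by
  set i := (e.symm : H →* H').comp j with hi
  have h1 : j.range ≤ (isolator i.range).comap (e.symm : H →* H') := by
    rintro _ ⟨g, rfl⟩
    exact le_isolator i.range ⟨g, rfl⟩
  have h2 : IsIsolated ((isolator i.range).comap (e.symm : H →* H')) := by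
    intro g n hn hg
    rw [Subgroup.mem_comap, map_pow] at hg
    exact isIsolated_isolator _ _ n hn hg
  have h3 := isolator_le h1 h2
  rw [hj] at h3
  rw [eq_top_iff]
  intro x _
  have := h3 (Subgroup.mem_top (e x))
  rw [Subgroup.mem_comap] at this
  simpa using this

theorem exists_of_equiv {G : Type u} {H : Type v} {X : Type w} [Group G] [LinearOrder G] [Group H]
    [LinearOrder H] [MulLeftMono H] [MulRightMono H] [Group X] (e : X ≃* H) (j : G →* H)
    (hj : IsMinDivCompletion j) :
    ∃ (c : Compl.{u, w} G) (e : c.H ≃* H), ∀ g, e (c.j g) = j g := by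
  let _ : LinearOrder X := LinearOrder.lift' e e.injective
  have hle : ∀ a b : X, a ≤ b ↔ e a ≤ e b := fun _ _ => Iff.rfl
  have : MulLeftMono X := ⟨fun c a b h => by
    rw [hle] at h ⊢
    rw [map_mul, map_mul]
    exact mul_le_mul_right h _⟩
  have : MulRightMono X := ⟨fun c a b h => by
    rw [hle] at h
    show a * c ≤ b * c
    rw [hle, map_mul, map_mul]
    exact mul_le_mul_left h _⟩
  refine ⟨⟨X, (e.symm : H →* X).comp j, ⟨⟨?_, ?_⟩, ?_, ?_⟩⟩, e, ?_⟩
  · exact e.symm.injective.comp hj.1.1
  · intro a b h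
    rw [hle]
    simpa using hj.1.2 h
  · intro d n hn
    obtain ⟨x, hx⟩ := hj.2.1 (e d) n hn
    refine ⟨e.symm x, e.injective ?_⟩
    simp [hx]
  · exact isolator_eq_top_of_equiv j e hj.2.2
  · intro g
    simp

/-- Every minimal divisible completion is isomorphic over `G` to one in the universe of `G`. -/
theorem exists_small {G : Type u} {H : Type v} [Group G] [LinearOrder G] [Group H] [LinearOrder H]
    [MulLeftMono H] [MulRightMono H] (j : G →* H) (hj : IsMinDivCompletion j) :
    ∃ (c : Compl.{u, u} G) (e : c.H ≃* H), ∀ g, e (c.j g) = j g := by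
  have : Small.{u} H := small_of_surjective (eval_surjective j hj.2.1 hj.2.2)
  exact exists_of_equiv (Shrink.mulEquiv : Shrink.{u} H ≃* H) j hj

theorem subgroup_mulLeftMono {D : Type*} [Group D] [LinearOrder D] [MulLeftMono D]
    (S : Subgroup D) : MulLeftMono S :=
  ⟨fun c a b h => by
    show (c : D) * a ≤ (c : D) * b
    exact mul_le_mul_right (show (a : D) ≤ b from h) _⟩

theorem subgroup_mulRightMono {D : Type*} [Group D] [LinearOrder D] [MulRightMono D]
    (S : Subgroup D) : MulRightMono S :=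
  ⟨fun c a b h => by
    show (a : D) * c ≤ (b : D) * c
    exact mul_le_mul_left (show (a : D) ≤ b from h) _⟩

theorem exists_small_of_emb {G : Type u} {D : Type v} [Group G] [LinearOrder G] [Group D]
    [LinearOrder D] [MulLeftMono D] [MulRightMono D] (j : G →* D) (hj : IsOrderEmb j)
    (hD : IsDivisibleGroup D) :
    ∃ (c : Compl.{u, u} G) (e : c.H →* D), ∀ g, e (c.j g) = j g := by
  have := subgroup_mulLeftMono (isolator j.range)
  have := subgroup_mulRightMono (isolator j.range)
  obtain ⟨K, e, he⟩ := exists_small _ (isMinDivCompletion_isolator j hj hD)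
  refine ⟨K, (isolator j.range).subtype.comp (e : K.H →* isolator j.range), fun g => ?_⟩
  show ((e (K.j g) : isolator j.range) : D) = j g
  rw [he]
  rfl

theorem universal (G : Type u) [Group G] [LinearOrder G] (c₀ : Compl.{u, u} G) :
    ∃ K : Compl.{u, u} G, ∀ c : Compl.{u, u} G,
      ∃ φ : K.H →* c.H, ∀ g, φ (K.j g) = c.j g := by
  obtain ⟨_, _⟩ := exists_wellFoundedLT (Compl.{u, u} G)
  let P : Type (u + 1) := Lex (∀ c : Compl.{u, u} G, c.H)
  have : MulLeftMono P := ⟨fun z x y hxy => hxy.elim (fun h => h ▸ le_rfl) fun ⟨i, hi⟩ =>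
    Or.inr ⟨i, fun k hk => congrArg (z k * ·) (hi.1 k hk), mul_lt_mul_right hi.2 _⟩⟩
  have : MulRightMono P := ⟨fun z x y hxy => hxy.elim (fun h => h ▸ le_rfl) fun ⟨i, hi⟩ =>
    Or.inr ⟨i, fun k hk => congrArg (· * z k) (hi.1 k hk), mul_lt_mul_left hi.2 _⟩⟩
  let d : G →* P := MonoidHom.pi (fun c : Compl.{u, u} G => c.j)
  have hd : IsOrderEmb d := by
    refine ⟨fun a b h => c₀.spec.1.1 (congrFun h c₀), fun a b h => ?_⟩
    exact Pi.toLex_monotone (fun c : Compl.{u, u} G => c.spec.1.2 h)
  have hP : IsDivisibleGroup P := by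
    intro x n hn
    choose y hy using fun c : Compl.{u, u} G => c.spec.2.1 (x c) n hn
    exact ⟨y, funext hy⟩
  obtain ⟨K, e, he⟩ := exists_small_of_emb d hd hP
  refine ⟨K, fun c => ?_⟩
  let π : P →* c.H := Pi.evalMonoidHom (fun c : Compl.{u, u} G => c.H) c
  refine ⟨π.comp e, fun g => ?_⟩
  show π (e (K.j g)) = c.j g
  rw [he]
  rfl

theorem main (G : Type u) [Group G] [LinearOrder G]
    (D : Type v) [Group D] [LinearOrder D] [MulLeftMono D] [MulRightMono D] (j₀ : G →* D)
    (hj₀ : IsOrderEmb j₀) (hD : IsDivisibleGroup D) :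
    ∃ K : Compl.{u, u} G, ∀ (H : Type w) [Group H] [LinearOrder H] [MulLeftMono H]
      [MulRightMono H] (j : G →* H), IsMinDivCompletion j →
      ∃ φ : K.H →* H, Function.Surjective φ ∧ ∀ g, φ (K.j g) = j g := by
  obtain ⟨c₀, -⟩ := exists_small_of_emb j₀ hj₀ hD
  obtain ⟨K, hK⟩ := universal G c₀
  refine ⟨K, fun H _ _ _ _ j hj => ?_⟩
  obtain ⟨c, e, he⟩ := exists_small j hj
  obtain ⟨φ, hφ⟩ := hK c
  have h : ∀ g, ((e : c.H →* H).comp φ) (K.j g) = j g := fun g => by
    show e (φ (K.j g)) = j g
    rw [hφ, he]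
  exact ⟨_, surjective_of_fix K.spec.2.1 K.j j hj.2.2 _ h, h⟩

end Pool.Agent.Lib.MP_d29ee2_al
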